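import Pool.Agent.H93.ES.Targets

/-!
# es_modules, row HFC: the exponential moment of the square of the mean of a sample
-/

set_option autoImplicit false

open Finset Pool.Agent.H18.MR Pool.Agent.H93.DE Pool.Agent.H6.N4D Pool.Agent.H93
  Pool.Agent.H93.ES

namespace Pool.Agent.H46.ES

theorem hfc_avE_add {R D : ℕ} (F G : (Fin R → Fin D) → ℝ) :
    avE R D (fun e => F e + G e) = avE R D F + avE R D G := by
  unfold avE
  rw [Finset.sum_add_distrib, add_div]

theorem hfc_avE_mul {R D : ℕ} (c : ℝ) (F : (Fin R → Fin D) → ℝ) :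
    avE R D (fun e => c * F e) = c * avE R D F := by
  unfold avE
  rw [← Finset.mul_sum, mul_div_assoc]

theorem hfc_avE_mono {R D : ℕ} {F G : (Fin R → Fin D) → ℝ} (h : ∀ e, F e ≤ G e) :
    avE R D F ≤ avE R D G := by
  unfold avE
  exact div_le_div_of_nonneg_right (Finset.sum_le_sum fun e _ => h e) (by positivity)

/-- Hoeffding's lemma for one coordinate -/
theorem hfc_one {D : ℕ} (hD : 1 ≤ D) {z : Fin D → ℝ} (hz : ∀ i, |z i| ≤ 6)
    (h0 : ∑ i, z i = 0) (s : ℝ) :
    (∑ i, Real.exp (s * z i)) / D ≤ Real.exp (18 * s ^ 2) := by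
  have hD0 : (0 : ℝ) < D := by exact_mod_cast hD
  have h1 : ∀ i, Real.exp (s * z i) ≤ Real.cosh (6 * s) + z i / 6 * Real.sinh (6 * s) := by
    intro i
    have h2 : |z i / 6| ≤ 1 := by
      rw [abs_div, abs_of_pos (by norm_num : (0 : ℝ) < 6)]
      have := hz i
      linarith
    have h3 := Real.exp_mul_le_cosh_add_mul_sinh h2 (6 * s)
    have h4 : z i / 6 * (6 * s) = s * z i := by ring
    rwa [h4] at h3
  have h2 : ∑ i, Real.exp (s * z i) ≤ D * Real.cosh (6 * s) := by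
    refine (Finset.sum_le_sum fun i _ => h1 i).trans (le_of_eq ?_)
    rw [Finset.sum_add_distrib, Finset.sum_const, Finset.card_univ, Fintype.card_fin,
      nsmul_eq_mul, ← Finset.sum_mul, ← Finset.sum_div, h0]
    ring
  have h3 : Real.cosh (6 * s) ≤ Real.exp (18 * s ^ 2) := by
    have h4 := Real.cosh_le_exp_half_sq (6 * s)
    have h5 : (6 * s) ^ 2 / 2 = 18 * s ^ 2 := by ring
    rwa [h5] at h4
  rw [div_le_iff₀ hD0]
  nlinarith

/-- the moment generating function of the mean -/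
theorem hfc_mgf {R D : ℕ} (hR : 1 ≤ R) (hD : 1 ≤ D) {z : Fin R → Fin D → ℝ}
    (hz : ∀ r i, |z r i| ≤ 6) (h0 : ∀ r, ∑ i, z r i = 0) (u : ℝ) :
    avE R D (fun e => Real.exp (u * ((∑ r, z r (e r)) / R))) ≤
      Real.exp (18 * u ^ 2 / R) := by
  have hR0 : (0 : ℝ) < R := by exact_mod_cast hR
  have h1 : ∀ e : Fin R → Fin D, Real.exp (u * ((∑ r, z r (e r)) / R)) =
      ∏ r, Real.exp (u / R * z r (e r)) := by
    intro e
    rw [← Real.exp_sum, ← Finset.mul_sum]
    congr 1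
    ring
  have h2 : ∑ e : Fin R → Fin D, ∏ r, Real.exp (u / R * z r (e r)) =
      ∏ r : Fin R, ∑ i, Real.exp (u / R * z r i) := by
    rw [Finset.prod_univ_sum, Fintype.piFinset_univ]
  unfold avE
  simp only [h1]
  rw [h2]
  have h3 : (D : ℝ) ^ R = ∏ _r : Fin R, (D : ℝ) := by
    rw [Finset.prod_const, Finset.card_univ, Fintype.card_fin]
  rw [h3, ← Finset.prod_div_distrib]
  have h4 : ∏ r : Fin R, (∑ i, Real.exp (u / R * z r i)) / (D : ℝ) ≤
      ∏ _r : Fin R, Real.exp (18 * (u / R) ^ 2) :=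
    Finset.prod_le_prod (fun r _ => by positivity) fun r _ =>
      hfc_one hD (hz r) (h0 r) (u / R)
  refine h4.trans (le_of_eq ?_)
  rw [Finset.prod_const, Finset.card_univ, Fintype.card_fin, ← Real.exp_nat_mul]
  congr 1
  field_simp

theorem hfc_gauss (s : ℝ) : MeasureTheory.Integrable
      (fun x : ℝ => Real.exp (s * x) * Real.exp (-(1 / 2) * x ^ 2)) ∧
    ∫ x : ℝ, Real.exp (s * x) * Real.exp (-(1 / 2) * x ^ 2) =
      Real.exp (s ^ 2 / 2) * √(Real.pi / (1 / 2)) := by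
  have h1 : (fun x : ℝ => Real.exp (s * x) * Real.exp (-(1 / 2) * x ^ 2)) =
      fun x => Real.exp (s ^ 2 / 2) * Real.exp (-(1 / 2) * (x - s) ^ 2) := by
    funext x
    rw [← Real.exp_add, ← Real.exp_add]
    congr 1
    ring
  rw [h1]
  have h2 : MeasureTheory.Integrable (fun x : ℝ => Real.exp (-(1 / 2) * x ^ 2)) :=
    integrable_exp_neg_mul_sq (by norm_num)
  refine ⟨(h2.comp_sub_right s).const_mul _, ?_⟩
  rw [MeasureTheory.integral_const_mul,
    MeasureTheory.integral_sub_right_eq_self (fun x : ℝ => Real.exp (-(1 / 2) * x ^ 2)) s,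
    integral_gaussian]

/-- the exponential moment of the square, real case -/
theorem hfc_real {R D : ℕ} (hR : 1 ≤ R) (hD : 1 ≤ D) {z : Fin R → Fin D → ℝ}
    (hz : ∀ r i, |z r i| ≤ 6) (h0 : ∀ r, ∑ i, z r i = 0) {κ : ℝ} (hκ : 0 ≤ κ)
    (hκR : 1000 * κ ≤ R) :
    avE R D (fun e => Real.exp (4 * κ * ((∑ r, z r (e r)) / R) ^ 2)) ≤ 4 := by
  have hR0 : (0 : ℝ) < R := by exact_mod_cast hR
  set c : ℝ := √(8 * κ) with hc
  have hc2 : c ^ 2 = 8 * κ := Real.sq_sqrt (by positivity)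
  set A : (Fin R → Fin D) → ℝ := fun e => (∑ r, z r (e r)) / R with hA
  have h1 : ∀ e, Real.exp (4 * κ * A e ^ 2) * √(Real.pi / (1 / 2)) =
      ∫ x : ℝ, Real.exp (c * A e * x) * Real.exp (-(1 / 2) * x ^ 2) := by
    intro e
    rw [(hfc_gauss (c * A e)).2]
    congr 2
    rw [mul_pow, hc2]
    ring
  have h2 : avE R D (fun e => Real.exp (4 * κ * A e ^ 2)) * √(Real.pi / (1 / 2)) =
      ∫ x : ℝ, avE R D (fun e => Real.exp ((c * x) * A e)) *
        Real.exp (-(1 / 2) * x ^ 2) := by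
    have h3 : ∀ x : ℝ, avE R D (fun e => Real.exp ((c * x) * A e)) *
        Real.exp (-(1 / 2) * x ^ 2) = (∑ e, Real.exp (c * A e * x) *
          Real.exp (-(1 / 2) * x ^ 2)) / (D : ℝ) ^ R := by
      intro x
      unfold avE
      rw [div_mul_eq_mul_div, Finset.sum_mul]
      congr 1
      refine Finset.sum_congr rfl fun e _ => ?_
      rw [show c * x * A e = c * A e * x by ring]
    simp only [h3]
    rw [MeasureTheory.integral_div, MeasureTheory.integral_finset_sum _
      fun e _ => (hfc_gauss (c * A e)).1]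
    unfold avE
    rw [div_mul_eq_mul_div, Finset.sum_mul]
    congr 1
    exact Finset.sum_congr rfl fun e _ => h1 e
  have hb : 0 < 1 / 2 - 144 * κ / R := by
    have h3 : 144 * κ / R ≤ 144 / 1000 := by
      rw [div_le_iff₀ hR0]
      linarith
    linarith
  have h4 : ∫ x : ℝ, avE R D (fun e => Real.exp ((c * x) * A e)) *
        Real.exp (-(1 / 2) * x ^ 2) ≤
      ∫ x : ℝ, Real.exp (-(1 / 2 - 144 * κ / R) * x ^ 2) := by
    refine MeasureTheory.integral_mono_of_nonneg ?_ (integrable_exp_neg_mul_sq hb) ?_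
    · refine Filter.Eventually.of_forall fun x => ?_
      refine mul_nonneg ?_ (Real.exp_pos _).le
      unfold avE
      positivity
    · refine Filter.Eventually.of_forall fun x => ?_
      have h5 := hfc_mgf hR hD hz h0 (c * x)
      have h6 : Real.exp (18 * (c * x) ^ 2 / R) * Real.exp (-(1 / 2) * x ^ 2) =
          Real.exp (-(1 / 2 - 144 * κ / R) * x ^ 2) := by
        rw [← Real.exp_add]
        congr 1
        rw [mul_pow, hc2]
        ring
      exact (mul_le_mul_of_nonneg_right h5 (Real.exp_pos _).le).trans (le_of_eq h6)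
  rw [← h2, integral_gaussian] at h4
  have h5 : √(Real.pi / (1 / 2 - 144 * κ / R)) ≤ 4 * √(Real.pi / (1 / 2)) := by
    have h6 : (4 : ℝ) = √16 := by
      rw [show (16 : ℝ) = 4 ^ 2 by norm_num, Real.sqrt_sq (by norm_num)]
    rw [h6, ← Real.sqrt_mul (by norm_num)]
    refine Real.sqrt_le_sqrt ?_
    rw [div_le_iff₀ hb]
    have h7 : 144 * κ / R ≤ 144 / 1000 := by
      rw [div_le_iff₀ hR0]
      linarith
    have h8 := Real.pi_pos
    nlinarith
  have h6 : 0 < √(Real.pi / (1 / 2)) := Real.sqrt_pos.2 (by positivity)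
  exact le_of_mul_le_mul_right (h4.trans h5) h6

theorem pf_HFC : T_HFC := by
  intro R D y κ hD hκ hκR hy
  have hD0 : (0 : ℝ) < D := by exact_mod_cast hD
  have hDc : (D : ℂ) ≠ 0 := by
    have : D ≠ 0 := by omega
    exact_mod_cast this
  rcases Nat.eq_zero_or_pos R with hR | hR
  · subst hR
    have h1 : κ = 0 := by
      push_cast at hκR
      linarith
    subst h1
    simp [avE]
  · have hR0 : (0 : ℝ) < R := by exact_mod_cast hR
    set μ : ℂ := (∑ r, (∑ i, y r i) / D) / R with hμ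
    have hmean : ∀ r, ‖(∑ i, y r i) / (D : ℂ)‖ ≤ 3 := by
      intro r
      rw [norm_div, Complex.norm_natCast, div_le_iff₀ hD0]
      refine (norm_sum_le _ _).trans ((Finset.sum_le_sum fun i _ => hy r i).trans
        (le_of_eq ?_))
      rw [Finset.sum_const, Finset.card_univ, Fintype.card_fin, nsmul_eq_mul]
      ring
    set Z : Fin R → Fin D → ℂ := fun r i => y r i - (∑ i, y r i) / D with hZ
    have hZ6 : ∀ r i, ‖Z r i‖ ≤ 6 := by
      intro r i
      refine (norm_sub_le _ _).trans ?_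
      have := hy r i
      have := hmean r
      linarith
    have hZ0 : ∀ r, ∑ i, Z r i = 0 := by
      intro r
      rw [hZ]
      simp only
      rw [Finset.sum_sub_distrib, Finset.sum_const, Finset.card_univ, Fintype.card_fin,
        nsmul_eq_mul, mul_div_cancel₀ _ hDc, sub_self]
    have hS : ∀ e : Fin R → Fin D, (∑ r, y r (e r)) / (R : ℂ) =
        μ + (∑ r, Z r (e r)) / R := by
      intro e
      rw [hμ, hZ]
      simp only
      rw [Finset.sum_sub_distrib, ← add_div]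
      congr 1
      ring
    have hre : ∀ e : Fin R → Fin D, ((∑ r, Z r (e r)) / (R : ℂ)).re =
        (∑ r, (Z r (e r)).re) / R := by
      intro e
      rw [show ((R : ℕ) : ℂ) = ((R : ℝ) : ℂ) by push_cast; rfl, Complex.div_ofReal_re,
        Complex.re_sum]
    have him : ∀ e : Fin R → Fin D, ((∑ r, Z r (e r)) / (R : ℂ)).im =
        (∑ r, (Z r (e r)).im) / R := by
      intro e
      rw [show ((R : ℕ) : ℂ) = ((R : ℝ) : ℂ) by push_cast; rfl, Complex.div_ofReal_im,
        Complex.im_sum]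
    have hpt : ∀ e : Fin R → Fin D,
        Real.exp (κ * ‖(∑ r, y r (e r)) / (R : ℂ)‖ ^ 2) ≤
        Real.exp (2 * κ * ‖μ‖ ^ 2) *
          ((1 / 2) * (Real.exp (4 * κ * ((∑ r, (Z r (e r)).re) / R) ^ 2) +
            Real.exp (4 * κ * ((∑ r, (Z r (e r)).im) / R) ^ 2))) := by
      intro e
      set W : ℂ := (∑ r, Z r (e r)) / R with hW
      have h1 : ‖(∑ r, y r (e r)) / (R : ℂ)‖ ^ 2 ≤ 2 * ‖μ‖ ^ 2 + 2 * ‖W‖ ^ 2 := by
        rw [hS e]
        have h2 := norm_add_le μ W
        have h3 := norm_nonneg (μ + W)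
        have h4 : ‖μ + W‖ ^ 2 ≤ (‖μ‖ + ‖W‖) ^ 2 := pow_le_pow_left₀ h3 h2 2
        nlinarith [sq_nonneg (‖μ‖ - ‖W‖)]
      have h5 : ‖W‖ ^ 2 = ((∑ r, (Z r (e r)).re) / R) ^ 2 +
          ((∑ r, (Z r (e r)).im) / R) ^ 2 := by
        rw [← hre e, ← him e, Complex.sq_norm, Complex.normSq_apply]
        ring
      set a : ℝ := 2 * κ * ((∑ r, (Z r (e r)).re) / R) ^ 2 with ha
      set b : ℝ := 2 * κ * ((∑ r, (Z r (e r)).im) / R) ^ 2 with hb
      have h6 : κ * ‖(∑ r, y r (e r)) / (R : ℂ)‖ ^ 2 ≤ 2 * κ * ‖μ‖ ^ 2 + (a + b) := by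
        have h7 := mul_le_mul_of_nonneg_left h1 hκ
        have h8 : κ * (2 * ‖μ‖ ^ 2 + 2 * ‖W‖ ^ 2) = 2 * κ * ‖μ‖ ^ 2 + (a + b) := by
          rw [h5, ha, hb]
          ring
        linarith
      refine (Real.exp_le_exp.2 h6).trans ?_
      rw [Real.exp_add]
      refine mul_le_mul_of_nonneg_left ?_ (Real.exp_pos _).le
      have h9 : 4 * κ * ((∑ r, (Z r (e r)).re) / R) ^ 2 = a + a := by rw [ha]; ring
      have h10 : 4 * κ * ((∑ r, (Z r (e r)).im) / R) ^ 2 = b + b := by rw [hb]; ring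
      rw [h9, h10, Real.exp_add, Real.exp_add, Real.exp_add]
      nlinarith [sq_nonneg (Real.exp a - Real.exp b)]
    refine (hfc_avE_mono hpt).trans ?_
    rw [hfc_avE_mul, hfc_avE_mul, hfc_avE_add]
    have h1 := hfc_real hR hD (z := fun r i => (Z r i).re)
      (fun r i => (Complex.abs_re_le_norm _).trans (hZ6 r i))
      (fun r => by rw [← Complex.re_sum, hZ0 r, Complex.zero_re]) hκ hκR
    have h2 := hfc_real hR hD (z := fun r i => (Z r i).im)
      (fun r i => (Complex.abs_im_le_norm _).trans (hZ6 r i))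
      (fun r => by rw [← Complex.im_sum, hZ0 r, Complex.zero_im]) hκ hκR
    have h3 := Real.exp_pos (2 * κ * ‖μ‖ ^ 2)
    rw [mul_comm (4 : ℝ) (Real.exp (2 * κ * ‖μ‖ ^ 2))]
    refine mul_le_mul_of_nonneg_left ?_ h3.le
    linarith

end Pool.Agent.H46.ES
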